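import Pool.Agent.Helper47.SR.Goals

namespace Pool.Agent.Helper47.SR

open Finset

private theorem W_eq {n : ℕ} (G : Grp n) (F : Finset (Finset (Fin n))) :
    W G F = #F + Ew G F := by
  unfold W Ew
  rw [Finset.sum_add_distrib]
  simp

theorem goal_CASEA (hTB : Goal_TB) (hFLOW : Goal_FLOW) (hKKA : Goal_KKA) : Goal_CASEA := by
  intro n G hG m hm hn S hS Y hY hc hlt
  obtain ⟨z, hz⟩ : ∃ z, n = z + m + 4 := ⟨n - m - 4, by omega⟩
  have hz' : n - m - 4 = z := by omega
  rw [hz'] at hc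
  have k1 := hKKA n m z (by omega) (by omega) Y hY hc
  have k2 := hTB n G hG m (by omega) Y hY
  have k3 := hFLOW n G hG m hm S hS
  have eD := W_eq G (dn m Y)
  have eU := W_eq G (up m S)
  have eY := W_eq G Y
  obtain ⟨q, hq⟩ : ∃ q, z = m + q := ⟨z - m, by omega⟩
  have hq' : z - m = q := by omega
  rw [hq'] at k1
  have hq1 : 1 ≤ q := by omega
  -- (m+1) W(dn Y) ≤ z W(Y)
  have a1 : (m + 1) * W G (dn m Y) ≤ z * W G Y := by
    calc (m + 1) * W G (dn m Y) = (m + 1) * #(dn m Y) + (m + 1) * Ew G (dn m Y) := by rw [eD]; ring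
      _ ≤ q * #Y + m * #Y := Nat.add_le_add k1 k2
      _ = z * #Y := by rw [hq]; ring
      _ ≤ z * W G Y := Nat.mul_le_mul_left _ (by omega)
  have a2 : z * W G S ≤ (m + 1) * W G (up m S) := by
    have h1 : (m + 1) * #(up m S) ≤ (m + 1) * W G (up m S) := Nat.mul_le_mul_left _ (by omega)
    have hz3 : n = z + (m + 4) := by omega
    have h2' : ∀ w : ℕ, n * w = z * w + (m + 4) * w := fun w => by
      calc n * w = (z + (m + 4)) * w := congrArg (· * w) hz3
        _ = _ := by ring
    have h2 := h2' (W G S)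
    omega
  obtain ⟨d, hd⟩ : ∃ d, W G S = W G Y + d := ⟨W G S - W G Y, by omega⟩
  have a3 : (m + 1) * d ≤ z * d := Nat.mul_le_mul_right _ (by omega)
  have : (m + 1) * (W G (dn m Y) + W G S) ≤ (m + 1) * (W G (up m S) + W G Y) := by
    calc (m + 1) * (W G (dn m Y) + W G S) = (m + 1) * W G (dn m Y) + (m + 1) * W G Y + (m + 1) * d := by
            rw [hd]; ring
      _ ≤ z * W G Y + (m + 1) * W G Y + z * d := by omega
      _ = z * W G S + (m + 1) * W G Y := by rw [hd]; ring
      _ ≤ (m + 1) * W G (up m S) + (m + 1) * W G Y := by omega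
      _ = _ := by ring
  exact Nat.le_of_mul_le_mul_left this (by omega)

end Pool.Agent.Helper47.SR
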