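import Pool.Agent.Helper47.SR.Goals

namespace Pool.Agent.Helper47.SR

open Finset

private theorem W_eq {n : ℕ} (G : Grp n) (F : Finset (Finset (Fin n))) :
    W G F = #F + Ew G F := by
  unfold W Ew
  rw [Finset.sum_add_distrib]
  simp

private theorem Ew_mono {n : ℕ} (G : Grp n) {F K : Finset (Finset (Fin n))} (h : F ⊆ K) :
    Ew G F ≤ Ew G K := by
  unfold Ew
  exact Finset.sum_le_sum_of_subset h

theorem goal_CASEB (hKKA : Goal_KKA) (hKKB : Goal_KKB) : Goal_CASEB := by
  intro n G m hm hn S hS Y hY hc hE hlt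
  obtain ⟨r, hr⟩ : ∃ r, n = m + 1 + r := ⟨n - (m + 1), by omega⟩
  have hrm : m + 1 ≤ r := by omega
  have k1 := hKKA n m (n - 1) hm (by omega) Y hY hc
  have hcardS : #S ≤ n.choose (n - m) := by
    have := Finset.card_le_card hS
    rw [Finset.card_powersetCard, Finset.card_univ, Fintype.card_fin] at this
    rwa [Nat.choose_symm (by omega)]
  have k2 := hKKB n m n (by omega) (by omega) S hS hcardS
  have e1 : n - 1 - m = r := by omega
  have e2 : n - m = r + 1 := by omega
  have e3 : n - (n - m) + 1 = m + 1 := by omega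
  rw [e1] at k1
  rw [e3, e2] at k2
  rw [e2] at hE
  have eD := W_eq G (dn m Y)
  have eU := W_eq G (up m S)
  have eY := W_eq G Y
  have eS := W_eq G S
  have m1 : Ew G (dn m Y) ≤ Ew G (lev n (m + 1)) := Ew_mono G (Finset.filter_subset _ _)
  have m2 : Ew G S ≤ Ew G (lev n m) := Ew_mono G hS
  set E1 := Ew G (lev n (m + 1))
  set E0 := Ew G (lev n m)
  have a1 : (m + 1) * W G (dn m Y) ≤ r * #Y + (m + 1) * E1 := by
    have h := Nat.mul_le_mul_left (m + 1) m1
    calc (m + 1) * W G (dn m Y) = (m + 1) * #(dn m Y) + (m + 1) * Ew G (dn m Y) := by rw [eD]; ring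
      _ ≤ _ := Nat.add_le_add k1 h
  have a2 : (r + 1) * W G S ≤ (m + 1) * W G (up m S) + (r + 1) * E0 := by
    have h := Nat.mul_le_mul_left (r + 1) m2
    have h1 : (m + 1) * #(up m S) ≤ (m + 1) * W G (up m S) := Nat.mul_le_mul_left _ (by omega)
    calc (r + 1) * W G S = (r + 1) * #S + (r + 1) * Ew G S := by rw [eS]; ring
      _ ≤ _ := by omega
  obtain ⟨d, hd⟩ : ∃ d, W G S = W G Y + d := ⟨W G S - W G Y, by omega⟩
  have a3 : (m + 1) * d ≤ (r + 1) * d := Nat.mul_le_mul_right _ (by omega)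
  have a4 : (r + 1) * #Y ≤ (r + 1) * W G Y := Nat.mul_le_mul_left _ (by omega)
  have a5 : (r + 1) * #Y = r * #Y + #Y := by ring
  have : (m + 1) * (W G (dn m Y) + W G S) ≤ (m + 1) * (W G (up m S) + W G Y) := by
    have b1 : (r + 1) * W G S = (r + 1) * W G Y + (r + 1) * d := by rw [hd]; ring
    have b2 : (m + 1) * (W G (dn m Y) + W G S) =
        (m + 1) * W G (dn m Y) + (m + 1) * W G Y + (m + 1) * d := by rw [hd]; ring
    have b3 : (m + 1) * (W G (up m S) + W G Y) =
        (m + 1) * W G (up m S) + (m + 1) * W G Y := by ring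
    omega
  exact Nat.le_of_mul_le_mul_left this (by omega)

end Pool.Agent.Helper47.SR
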