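import Pool.Agent.Helper47.SR.Goals

namespace Pool.Agent.Helper47.SR

open Finset

private theorem choose_mono_half (a : ℕ) {k r : ℕ} (h : k ≤ r) (hr : r ≤ a / 2) :
    a.choose k ≤ a.choose r := by
  induction r, h using Nat.le_induction with
  | base => exact le_rfl
  | succ r hkr ih =>
    exact (ih (by omega)).trans (Nat.choose_le_succ_of_lt_half_left (by omega))

private theorem choose_mul_le (n m : ℕ) :
    (n / 2).choose (m / 2) * (n / 2).choose (m - m / 2) ≤ n.choose m := by
  have h1 : (n / 2 + n / 2).choose m ≤ n.choose m := Nat.choose_le_choose m (by omega)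
  refine le_trans ?_ h1
  rw [Nat.add_choose_eq]
  have hm : (m / 2, m - m / 2) ∈ HasAntidiagonal.antidiagonal m := by
    rw [HasAntidiagonal.mem_antidiagonal]; simp; omega
  exact Finset.single_le_sum (f := fun ij : ℕ × ℕ => (n / 2).choose ij.1 * (n / 2).choose ij.2)
    (fun _ _ => Nat.zero_le _) hm

private theorem drop (n m K : ℕ) (hm : 1 ≤ m) :
    ∀ j, K + j ≤ n + 1 → K * n.choose m ≤ K * (n - j).choose m + j * m * n.choose m := by
  intro j
  induction j with
  | zero => intro _; simp
  | succ j ih =>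
    intro hj
    have h := ih (by omega)
    by_cases hz : n - j = 0
    · have : n - (j + 1) = n - j := by omega
      rw [this]
      have : j * m * n.choose m ≤ (j + 1) * m * n.choose m :=
        Nat.mul_le_mul_right _ (Nat.mul_le_mul_right _ (by omega))
      omega
    obtain ⟨N, hN⟩ : ∃ N, n - j = N + 1 := ⟨n - j - 1, by omega⟩
    obtain ⟨p, rfl⟩ : ∃ p, m = p + 1 := ⟨m - 1, by omega⟩
    have hN' : n - (j + 1) = N := by omega
    rw [hN']
    rw [hN] at h
    have e1 : (N + 1).choose (p + 1) = N.choose p + N.choose (p + 1) := Nat.choose_succ_succ N p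
    have e2 : (N + 1) * N.choose p = (N + 1).choose (p + 1) * (p + 1) := Nat.add_one_mul_choose_eq N p
    have e3 : K * N.choose p ≤ (p + 1) * n.choose (p + 1) := by
      calc K * N.choose p ≤ (N + 1) * N.choose p := Nat.mul_le_mul_right _ (by omega)
        _ = (p + 1) * (N + 1).choose (p + 1) := by rw [e2]; ring
        _ ≤ (p + 1) * n.choose (p + 1) :=
          Nat.mul_le_mul_left _ (Nat.choose_le_choose _ (by omega))
    have e4 : K * (N + 1).choose (p + 1) = K * N.choose p + K * N.choose (p + 1) := by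
      rw [e1]; ring
    have e5 : (j + 1) * (p + 1) * n.choose (p + 1) =
        j * (p + 1) * n.choose (p + 1) + (p + 1) * n.choose (p + 1) := by ring
    omega

theorem goal_N1 : Goal_N1 := by
  refine ⟨144, fun n hn m hm h16 => ?_⟩
  have hmn : 48 * m ≤ n := by nlinarith
  set a := n / 2 with ha
  have h1 := choose_mul_le n m
  rw [← ha] at h1
  have h2 : a.choose 2 ≤ a.choose (m - m / 2) := choose_mono_half a (by omega) (by omega)
  have h3 : 4 * n ≤ a.choose 2 := by
    rw [Nat.choose_two_right]
    have ha2 : 72 ≤ a := by omega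
    rw [Nat.le_div_iff_mul_le (by norm_num)]
    obtain ⟨c, hc⟩ : ∃ c, a = c + 1 := ⟨a - 1, by omega⟩
    have : n ≤ 2 * a + 1 := by omega
    rw [hc] at *
    simp only [Nat.add_sub_cancel]
    nlinarith
  have h4 : 4 * (n * a.choose (m / 2)) ≤ n.choose m := by
    calc 4 * (n * a.choose (m / 2)) = a.choose (m / 2) * (4 * n) := by ring
      _ ≤ a.choose (m / 2) * a.choose (m - m / 2) := Nat.mul_le_mul_left _ (h3.trans h2)
      _ ≤ _ := h1
  have h5 := drop n m (n - m - 3) (by omega) (m + 4) (by omega)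
  have e : n - (m + 4) = n - m - 4 := by omega
  rw [e] at h5
  set K := n - m - 3 with hK
  have hKpos : 0 < K := by omega
  have h6 : 8 * ((m + 4) * m) ≤ 3 * K := by
    have : 8 * ((m + 4) * m) + 3 * m + 9 ≤ 3 * n := by nlinarith
    omega
  have h7 : 5 * n.choose m ≤ 8 * (n - m - 4).choose m := by
    have : K * (5 * n.choose m) ≤ K * (8 * (n - m - 4).choose m) := by
      have h8 : 8 * ((m + 4) * m * n.choose m) ≤ 3 * K * n.choose m := by
        calc 8 * ((m + 4) * m * n.choose m) = (8 * ((m + 4) * m)) * n.choose m := by ring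
          _ ≤ _ := Nat.mul_le_mul_right _ h6
      have h9 : K * (5 * n.choose m) + 3 * K * n.choose m = 8 * (K * n.choose m) := by ring
      have h10 : K * (8 * (n - m - 4).choose m) = 8 * (K * (n - m - 4).choose m) := by ring
      omega
    exact Nat.le_of_mul_le_mul_left this hKpos
  omega

theorem goal_N3 : Goal_N3 := by
  refine ⟨400, fun n hn m h16 h2m => ?_⟩
  have hm5 : 6 ≤ m := by
    by_contra h
    push Not at h
    have : m ≤ 5 := by omega
    have : m ^ 2 ≤ 25 := by nlinarith
    omega
  set a := n / 2 with ha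
  have h1 := choose_mul_le n m
  rw [← ha] at h1
  have h2 : a.choose 3 ≤ a.choose (m - m / 2) := choose_mono_half a (by omega) (by omega)
  have h3 : n * n ≤ 2 * a.choose 3 := by
    obtain ⟨c, hc⟩ : ∃ c, a = c + 2 + 1 := ⟨a - 3, by omega⟩
    have e1 : (c + 2 + 1) * (c + 2).choose 2 = (c + 2 + 1).choose 3 * 3 :=
      Nat.add_one_mul_choose_eq (c + 2) 2
    have e2 : (c + 1 + 1) * (c + 1).choose 1 = (c + 1 + 1).choose 2 * 2 :=
      Nat.add_one_mul_choose_eq (c + 1) 1
    rw [Nat.choose_one_right] at e2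
    have hn2 : n ≤ 2 * (c + 3) + 1 := by omega
    have hc' : 197 ≤ c := by omega
    rw [hc]
    have e2' : (c + 2).choose 2 * 2 = (c + 2) * (c + 1) := by
      rw [show c + 2 = c + 1 + 1 from rfl, ← e2]
    have e3 : 6 * (c + 2 + 1).choose 3 = (c + 3) * ((c + 2) * (c + 1)) := by
      calc 6 * (c + 2 + 1).choose 3 = 2 * ((c + 2 + 1).choose 3 * 3) := by ring
        _ = 2 * ((c + 2 + 1) * (c + 2).choose 2) := by rw [e1]
        _ = (c + 3) * ((c + 2).choose 2 * 2) := by ring
        _ = _ := by rw [e2']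
    have e4 : n * n ≤ (2 * c + 7) * (2 * c + 7) := Nat.mul_le_mul (by omega) (by omega)
    have e5 : 3 * ((2 * c + 7) * (2 * c + 7)) ≤ (c + 3) * ((c + 2) * (c + 1)) := by
      have : 3 * ((2 * c + 7) * (2 * c + 7)) ≤ 197 * ((c + 2) * (c + 1)) := by nlinarith
      exact this.trans (Nat.mul_le_mul_right _ (by omega))
    have e6 : 3 * (n * n) ≤ 6 * (c + 2 + 1).choose 3 := by
      rw [e3]; exact (Nat.mul_le_mul_left 3 e4).trans e5
    omega
  have h4 : n * (n * a.choose (m / 2)) ≤ 2 * n.choose m := by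
    calc n * (n * a.choose (m / 2)) = a.choose (m / 2) * (n * n) := by ring
      _ ≤ a.choose (m / 2) * (2 * a.choose (m - m / 2)) :=
        Nat.mul_le_mul_left _ (h3.trans (Nat.mul_le_mul_left 2 h2))
      _ = 2 * (a.choose (m / 2) * a.choose (m - m / 2)) := by ring
      _ ≤ _ := Nat.mul_le_mul_left 2 h1
  obtain ⟨N, hN⟩ : ∃ N, n = N + 1 := ⟨n - 1, by omega⟩
  have h5 : (N.choose m) * (N + 1) = ((N + 1).choose m) * (N + 1 - m) := Nat.choose_mul_succ_eq N m
  have e1 : n - 1 = N := by omega
  rw [e1]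
  have h6 : n * (n.choose m + n * a.choose (m / 2)) ≤ n * (2 * N.choose m) := by
    have h7 : n * (2 * N.choose m) = n.choose m * (2 * (n - m)) := by
      rw [hN]
      calc (N + 1) * (2 * N.choose m) = 2 * (N.choose m * (N + 1)) := by ring
        _ = _ := by rw [h5]; ring
    have h8 : n.choose m * (n + 2) ≤ n.choose m * (2 * (n - m)) :=
      Nat.mul_le_mul_left _ (by omega)
    have h9 : n * (n.choose m + n * a.choose (m / 2)) =
        n.choose m * n + n * (n * a.choose (m / 2)) := by ring
    have h10 : n.choose m * (n + 2) = n.choose m * n + 2 * n.choose m := by ring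
    omega
  exact Nat.le_of_mul_le_mul_left h6 (by omega)

end Pool.Agent.Helper47.SR
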