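import Pool.Agent.Helper47.SR.Goals

namespace Pool.Agent.Helper47.SR

open Finset

private theorem mv_mv {n : ℕ} (γ δ : Equiv.Perm (Fin n)) (A : Finset (Fin n)) :
    mv γ (mv δ A) = mv (γ * δ) A := by
  simp only [mv, Finset.map_map]
  congr 1

private theorem mv_one {n : ℕ} (A : Finset (Fin n)) : mv (1 : Equiv.Perm (Fin n)) A = A := by
  have : (1 : Equiv.Perm (Fin n)).toEmbedding = Function.Embedding.refl _ := rfl
  simp only [mv, this, Finset.map_refl]

private theorem orb_mv {n : ℕ} (G : Grp n) {γ : Equiv.Perm (Fin n)} (hγ : γ ∈ G)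
    (A : Finset (Fin n)) : orb G (mv γ A) = orb G A := by
  ext B
  simp only [orb, Finset.mem_filter, Finset.mem_univ, true_and]
  constructor
  · rintro ⟨δ, hδ, h⟩
    exact ⟨δ * γ, G.mul_mem hδ hγ, by rw [← mv_mv]; exact h⟩
  · rintro ⟨δ, hδ, h⟩
    refine ⟨δ * γ⁻¹, G.mul_mem hδ (G.inv_mem hγ), ?_⟩
    rw [mv_mv, inv_mul_cancel_right]; exact h

private theorem mem_orb_self {n : ℕ} (G : Grp n) (A : Finset (Fin n)) : A ∈ orb G A := by
  simp only [orb, Finset.mem_filter, Finset.mem_univ, true_and]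
  exact ⟨1, G.one_mem, mv_one A⟩

private theorem mv_lev {n j : ℕ} {γ : Equiv.Perm (Fin n)} {A : Finset (Fin n)}
    (h : A ∈ lev n j) : mv γ A ∈ lev n j := by
  have := (Finset.mem_powersetCard.1 h).2
  exact Finset.mem_powersetCard.2 ⟨Finset.subset_univ _, by rw [Finset.card_map]; exact this⟩

private theorem inv_up {n m : ℕ} (G : Grp n) {F : Finset (Finset (Fin n))} (hF : IsInv G F) :
    IsInv G (up m F) := by
  intro γ hγ B hB
  simp only [up, Finset.mem_filter] at hB ⊢
  obtain ⟨h1, a, ha, h2⟩ := hB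
  refine ⟨mv_lev h1, γ a, Finset.mem_map_of_mem _ ha, ?_⟩
  have : (mv γ B).erase (γ a) = mv γ (B.erase a) := by
    simp only [mv]
    rw [Finset.map_erase]; rfl
  rw [this]
  exact hF γ hγ _ h2

theorem goal_QMID (hORB : Goal_ORB) (hSTAN : Goal_STAN) : Goal_QMID := by
  classical
  intro n G m hm S hS inst
  set St : Finset (Finset (Fin n)) := (lev n m).filter (fun A => orb G A ∈ S) with hSt
  have iSt : IsInv G St := by
    intro γ hγ A hA
    rw [hSt, Finset.mem_filter] at hA ⊢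
    exact ⟨mv_lev hA.1, by rw [orb_mv G hγ]; exact hA.2⟩
  have himg : St.image (orb G) = S := by
    ext O
    rw [Finset.mem_image]
    constructor
    · rintro ⟨A, hA, rfl⟩
      exact (Finset.mem_filter.1 hA).2
    · intro hO
      obtain ⟨A, hA, rfl⟩ := Finset.mem_image.1 (hS hO)
      exact ⟨A, Finset.mem_filter.2 ⟨hA, hO⟩, rfl⟩
  have h1 := hSTAN n G m (by omega) St (Finset.filter_subset _ _) iSt
  rw [hORB n G St iSt, hORB n G (up m St) (inv_up G iSt), himg] at h1
  have hpos : 0 < Nat.card G := Nat.card_pos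
  have h2 : #S ≤ #((up m St).image (orb G)) := Nat.le_of_mul_le_mul_left h1 hpos
  refine h2.trans (Finset.card_le_card ?_)
  intro O hO
  obtain ⟨B, hB, rfl⟩ := Finset.mem_image.1 hO
  simp only [up, Finset.mem_filter] at hB
  obtain ⟨hB1, a, ha, hB2⟩ := hB
  rw [Finset.mem_filter]
  refine ⟨Finset.mem_image_of_mem _ hB1, orb G (B.erase a), (Finset.mem_filter.1 hB2).2, ?_⟩
  exact ⟨B.erase a, mem_orb_self G _, B, mem_orb_self G _, Finset.erase_subset _ _⟩

end Pool.Agent.Helper47.SR
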