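import Pool.Agent.Helper47.SR.Goals

namespace Pool.Agent.Helper47.SR

open Finset

private theorem W_sdiff {n : ℕ} (G : Grp n) {F K : Finset (Finset (Fin n))} (h : F ⊆ K) :
    W G (K \ F) + W G F = W G K := by
  unfold W
  exact Finset.sum_sdiff h

private theorem inv_sdiff {n : ℕ} (G : Grp n) (m : ℕ) {F : Finset (Finset (Fin n))}
    (hF : IsInv G F) : IsInv G (lev n m \ F) := by
  intro γ hγ A hA
  rw [Finset.mem_sdiff] at hA ⊢
  refine ⟨?_, ?_⟩
  · have := (Finset.mem_powersetCard.1 hA.1).2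
    exact Finset.mem_powersetCard.2 ⟨Finset.subset_univ _, by rw [Finset.card_map]; exact this⟩
  · intro h
    apply hA.2
    have h2 := hF γ⁻¹ (G.inv_mem hγ) _ h
    have : mv γ⁻¹ (mv γ A) = A := by
      simp only [mv, Finset.map_map]
      have e : γ.toEmbedding.trans (γ⁻¹).toEmbedding = Function.Embedding.refl _ := by
        ext x
        simp
      rw [e, Finset.map_refl]
    rwa [this] at h2

private theorem erase_mem {n m : ℕ} {B : Finset (Fin n)} (hB : B ∈ lev n (m + 1)) {a : Fin n}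
    (ha : a ∈ B) : B.erase a ∈ lev n m := by
  have := (Finset.mem_powersetCard.1 hB).2
  refine Finset.mem_powersetCard.2 ⟨Finset.subset_univ _, ?_⟩
  rw [Finset.card_erase_of_mem ha, this]; rfl

private theorem up_sdiff {n : ℕ} (m : ℕ) (F : Finset (Finset (Fin n))) :
    up m (lev n m \ F) = lev n (m + 1) \ dn m F := by
  ext B
  simp only [up, dn, Finset.mem_filter, Finset.mem_sdiff, not_and, not_forall]
  constructor
  · rintro ⟨hB, a, ha, h1, h2⟩
    exact ⟨hB, fun _ => ⟨a, ha, h2⟩⟩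
  · rintro ⟨hB, h⟩
    obtain ⟨a, ha, h2⟩ := h hB
    exact ⟨hB, a, ha, erase_mem hB ha, h2⟩

private theorem dn_sdiff {n : ℕ} (m : ℕ) (F : Finset (Finset (Fin n))) :
    dn m (lev n m \ F) = lev n (m + 1) \ up m F := by
  ext B
  simp only [up, dn, Finset.mem_filter, Finset.mem_sdiff, not_and, not_exists]
  constructor
  · rintro ⟨hB, h⟩
    exact ⟨hB, fun _ a ha => (h a ha).2⟩
  · rintro ⟨hB, h⟩
    exact ⟨hB, fun a ha => ⟨erase_mem hB ha, h hB a ha⟩⟩

theorem goal_SYM : Goal_SYM := by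
  intro n G m hh S Y hS hY iS iY hlt
  by_cases h2 : 2 * W G Y ≤ W G (lev n m)
  · exact hh S Y hS hY iS iY h2 hlt
  push Not at h2
  have e1 := W_sdiff G hS
  have e2 := W_sdiff G hY
  have key := hh (lev n m \ Y) (lev n m \ S) Finset.sdiff_subset Finset.sdiff_subset
    (inv_sdiff G m iY) (inv_sdiff G m iS) (by omega) (by omega)
  rw [up_sdiff, dn_sdiff] at key
  have e3 : W G (lev n (m + 1) \ dn m Y) + W G (dn m Y) = W G (lev n (m + 1)) :=
    W_sdiff G (Finset.filter_subset _ _)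
  have e4 : W G (lev n (m + 1) \ up m S) + W G (up m S) = W G (lev n (m + 1)) :=
    W_sdiff G (Finset.filter_subset _ _)
  omega

end Pool.Agent.Helper47.SR
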